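import Mathlib

namespace Pool.Agent.Results.MP_071a69_co.Wheel

open SimpleGraph Finset

/-- the wheel `W_n`: a cycle on `n - 1` vertices and a hub `none` -/
def wheel (n : ℕ) : SimpleGraph (Option (Fin (n - 1))) where
  Adj
    | none, none => False
    | none, some _ => True
    | some _, none => True
    | some i, some j => (cycleGraph (n - 1)).Adj i j
  symm := ⟨by rintro (_ | _) (_ | _) h <;> first | exact h | exact h.symm⟩
  loopless := ⟨by rintro (_ | _) h <;> first | exact h | exact h.ne rfl⟩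

variable {V : Type} [DecidableEq V]

/-- the geodesic paths, each recorded by its set of edges (a path and its reverse agree) -/
def geo (G : SimpleGraph V) : Set (Finset (Sym2 V)) :=
  {s | ∃ (u v : V) (p : G.Walk u v), p.IsPath ∧ 1 ≤ p.length ∧ p.length = G.dist u v ∧
    s = p.edges.toFinset}

def GeodesicLeech (G : SimpleGraph V) : Prop :=
  ∃ f : Sym2 V → ℕ, (∀ e ∈ G.edgeSet, 1 ≤ f e) ∧
    {w | ∃ s ∈ geo G, w = ∑ e ∈ s, f e} = Set.Icc 1 (geo G).ncard

def geoF [Fintype V] (G : SimpleGraph V) [DecidableRel G.Adj] : Finset (Finset (Sym2 V)) :=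
  ((univ.filter (fun x : V × V => G.Adj x.1 x.2)).image (fun x => {s(x.1, x.2)})) ∪
  ((univ.filter (fun x : V × V × V => G.Adj x.1 x.2.1 ∧ G.Adj x.2.1 x.2.2 ∧ x.1 ≠ x.2.2 ∧
    ¬ G.Adj x.1 x.2.2)).image (fun x => {s(x.1, x.2.1), s(x.2.1, x.2.2)}))

lemma geo_eq [Fintype V] (G : SimpleGraph V) [DecidableRel G.Adj]
    (h : ∀ u v, u = v ∨ G.Adj u v ∨ ∃ w, G.Adj u w ∧ G.Adj w v) : geo G = geoF G := by
  ext s
  simp only [geo, geoF, Set.mem_ofPred_eq, coe_union, coe_image, Set.mem_union, Set.mem_image,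
    mem_coe, mem_filter, mem_univ, true_and]
  constructor
  · rintro ⟨u, v, p, hp, h1, h2, rfl⟩
    have hd : G.dist u v ≤ 2 := by
      rcases h u v with rfl | h3 | ⟨w, h3, h4⟩
      · simp
      · exact (dist_le h3.toWalk).trans (by simp)
      · exact dist_le (Walk.cons h3 (Walk.cons h4 Walk.nil))
    match p, hp, h1, h2 with
    | .nil, _, h1, _ => simp at h1
    | .cons a .nil, _, _, _ => exact Or.inl ⟨(u, v), a, by simp⟩
    | .cons (v := w) a (.cons b .nil), hp, _, h2 =>
      refine Or.inr ⟨(u, w, v), ⟨a, b, ?_, ?_⟩, by simp⟩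
      · rintro (rfl : u = v)
        simp at h2
      · intro (h3 : G.Adj u v)
        have := dist_le h3.toWalk
        simp at this h2
        omega
    | .cons a (.cons b (.cons c q)), _, _, h2 =>
      simp only [Walk.length_cons] at h2
      omega
  · rintro (⟨⟨u, v⟩, h1, rfl⟩ | ⟨⟨u, w, v⟩, ⟨h1, h2, h3, h4⟩, rfl⟩)
    · refine ⟨u, v, h1.toWalk, by simp [h1.ne], by simp, ?_, by simp⟩
      rw [dist_eq_one_iff_adj.2 h1]; simp
    · refine ⟨u, v, Walk.cons h1 (Walk.cons h2 Walk.nil), ?_, by simp, ?_, by simp⟩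
      · simp only at h1 h2 h3
        simp [h1.ne, h2.ne, h3]
      · have e1 := dist_le (Walk.cons h1 (Walk.cons h2 Walk.nil))
        have e2 : G.dist u v ≠ 1 := fun h => h4 (dist_eq_one_iff_adj.1 h)
        have e3 : G.dist u v ≠ 0 := by
          rw [Ne, dist_eq_zero_iff_eq_or_not_reachable]
          rintro (h | h)
          · exact h3 h
          · exact h ⟨Walk.cons h1 (Walk.cons h2 Walk.nil)⟩
        simp only [Walk.length_cons, Walk.length_nil] at e1 ⊢
        omega

instance : DecidableRel (wheel 7).Adj := fun a b => by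
  cases a <;> cases b <;> simp only [wheel] <;> infer_instance

def lab (a b : Option (Fin 6)) : ℕ :=
  match a, b with
  | none, none => 1
  | none, some i => ![1, 2, 3, 15, 23, 7] i
  | some i, none => ![1, 2, 3, 15, 23, 7] i
  | some i, some j => if j = i + 1 then ![5, 6, 12, 8, 13, 14] i
      else if i = j + 1 then ![5, 6, 12, 8, 13, 14] j else 1

def f0 : Sym2 (Option (Fin 6)) → ℕ := Sym2.lift ⟨lab, by decide +kernel⟩

theorem result : GeodesicLeech (wheel 7) := by
  refine ⟨f0, ?_, ?_⟩
  · intro e _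
    induction e using Sym2.ind with
    | _ a b => revert a b; decide +kernel
  · rw [geo_eq _ (by decide +kernel), Set.ncard_coe_finset]
    have h1 : (geoF (wheel 7)).card = 27 := by decide +kernel
    have h2 : (geoF (wheel 7)).image (fun s => ∑ e ∈ s, f0 e) = Finset.Icc 1 27 := by
      decide +kernel
    rw [h1, ← Finset.coe_Icc, ← h2]
    ext w
    simp [eq_comm]

end Pool.Agent.Results.MP_071a69_co.Wheel
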